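import Mathlib
import Pool.Agent.Helper15.DimerBase
import Pool.Agent.Helper94.DimerHILB

open MeasureTheory Set Filter Topology
open scoped ContDiff RealInnerProductSpace ENNReal

namespace Helper77.Dimer

open Helper15.Dimer

set_option linter.unusedSectionVars false

variable {E : Type*} [NormedAddCommGroup E] [InnerProductSpace ℝ E] [FiniteDimensional ℝ E]
  [MeasurableSpace E] [BorelSpace E]

theorem test_zero : Test (fun _ : E => (0 : ℝ)) :=
  ⟨contDiff_const, HasCompactSupport.zero⟩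

theorem test_add {F G : E → ℝ} (hF : Test F) (hG : Test G) : Test (F + G) :=
  ⟨hF.1.add hG.1, hF.2.add hG.2⟩

theorem test_smul {F : E → ℝ} (hF : Test F) (c : ℝ) : Test (c • F) :=
  ⟨contDiff_const.smul hF.1, hF.2.smul_left⟩

theorem exists_bound_fderiv {F : E → ℝ} (hF : Test F) : ∃ C, ∀ x, ‖fderiv ℝ F x‖ ≤ C :=
  (hF.2.fderiv ℝ).exists_bound_of_continuous (continuous_fderiv_test hF)

/-- The gradient as a vector field. -/
noncomputable def grad (F : E → ℝ) (x : E) : E := (InnerProductSpace.toDual ℝ E).symm (fderiv ℝ F x)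

theorem inner_grad (F : E → ℝ) (x s : E) : ⟪grad F x, s⟫ = fderiv ℝ F x s := by
  unfold grad
  rw [InnerProductSpace.toDual_symm_apply]

theorem continuous_grad {F : E → ℝ} (hF : Test F) : Continuous (grad F) :=
  (InnerProductSpace.toDual ℝ E).symm.continuous.comp (continuous_fderiv_test hF)

theorem norm_grad (F : E → ℝ) (x : E) : ‖grad F x‖ = ‖fderiv ℝ F x‖ := by
  unfold grad
  exact (InnerProductSpace.toDual ℝ E).symm.norm_map _

/-- A measurable almost optimal selection. -/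
theorem exists_selection {K : Set E} (hK : IsCompact K) (hne : K.Nonempty) {Φ : E → ℝ}
    (hΦ : Continuous Φ) {F : E → ℝ} (hF : Test F) {δ : ℝ} (hδ : 0 < δ) :
    ∃ f : E → E, Measurable f ∧ (∀ x, f x ∈ K) ∧
      ∀ x, Psi K Φ (fderiv ℝ F x) - δ ≤ fderiv ℝ F x (f x) + Φ (f x) := by
  classical
  have : Nonempty K := hne.to_subtype
  obtain ⟨s, hs⟩ := TopologicalSpace.exists_dense_seq K
  have hcf : Continuous fun x => Psi K Φ (fderiv ℝ F x) :=
    (continuous_Psi hK hΦ).comp (continuous_fderiv_test hF)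
  have key : ∀ x, ∃ n, Psi K Φ (fderiv ℝ F x) - δ < fderiv ℝ F x (s n) + Φ (s n) := by
    intro x
    have hcont : Continuous fun y : E => fderiv ℝ F x y + Φ y := (fderiv ℝ F x).continuous.add hΦ
    obtain ⟨y, hyK, hy⟩ := hK.exists_isMaxOn hne hcont.continuousOn
    have hP : Psi K Φ (fderiv ℝ F x) ≤ fderiv ℝ F x y + Φ y := by
      refine csSup_le (hne.image _) ?_
      rintro _ ⟨z, hz, rfl⟩
      exact hy hz
    have hopen : IsOpen {z : K | fderiv ℝ F x y + Φ y - δ < fderiv ℝ F x z + Φ z} :=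
      isOpen_lt continuous_const (hcont.comp continuous_subtype_val)
    obtain ⟨n, hn⟩ := hs.exists_mem_open hopen ⟨⟨y, hyK⟩, by
      show fderiv ℝ F x y + Φ y - δ < fderiv ℝ F x y + Φ y
      linarith⟩
    exact ⟨n, lt_of_le_of_lt (by linarith) hn⟩
  refine ⟨fun x => (s (Nat.find (key x)) : E), ?_, fun x => (s _).2, fun x =>
    (Nat.find_spec (key x)).le⟩
  refine Measurable.find (f := fun n _ => (s n : E)) (fun n => measurable_const) (fun n => ?_) key
  exact (isOpen_lt (hcf.sub continuous_const)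
    (((continuous_fderiv_test hF).clm_apply continuous_const).add continuous_const)).measurableSet

theorem exists_certificate (K : Set E) (hK : IsCompact K) (hKc : Convex ℝ K)
    (Φ : E → ℝ) (hΦ : Continuous Φ) (hΦc : ConcaveOn ℝ K Φ)
    (R : Set E) (hR : MeasurableSet R) (hRb : Bornology.IsBounded R)
    (g : E → E) (hg : Measurable g) (hgK : ∀ x ∈ R, g x ∈ K)
    (hmax : ∀ f : E → E, Measurable f → (∀ x ∈ R, f x ∈ K) →
      (∀ ψ : E → ℝ, Test ψ →
        ∫ x in R, fderiv ℝ ψ x (f x) = ∫ x in R, fderiv ℝ ψ x (g x)) →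
      ∫ x in R, Φ (f x) ≤ ∫ x in R, Φ (g x))
    (ε : ℝ) (hε : 0 < ε) :
    ∃ F : E → ℝ, Test F ∧ ∫ x in R, slack K Φ (fderiv ℝ F x) (g x) ≤ ε := by
  classical
  rcases K.eq_empty_or_nonempty with hKe | hne
  · have hRe : R = ∅ := by
      rw [Set.eq_empty_iff_forall_notMem]
      intro x hx
      have := hgK x hx
      rw [hKe] at this
      exact this
    refine ⟨fun _ => 0, test_zero, ?_⟩
    rw [hRe]
    simp [hε.le]
  obtain ⟨k₀, hk₀⟩ := hne
  have hne : K.Nonempty := ⟨k₀, hk₀⟩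
  set μ : Measure E := volume.restrict R with hμ
  have hfin : IsFiniteMeasure μ := ⟨by
    rw [hμ, Measure.restrict_apply_univ]
    exact hRb.measure_lt_top⟩
  -- bounds on `K`
  obtain ⟨C, hC⟩ : ∃ C, ∀ y ∈ K, ‖y‖ ≤ C := hK.isBounded.exists_norm_le
  have hC0 : 0 ≤ C := le_trans (norm_nonneg k₀) (hC k₀ hk₀)
  obtain ⟨B, hB⟩ : ∃ B, ∀ y ∈ K, ‖Φ y‖ ≤ B := by
    obtain ⟨B, hB⟩ := (hK.image hΦ).isBounded.exists_norm_le
    exact ⟨B, fun y hy => hB _ ⟨y, hy, rfl⟩⟩
  have hKcl : IsClosed K := hK.isClosed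
  -- ae in K functions
  have memLp_of_K : ∀ f : E → E, Measurable f → (∀ᵐ x ∂μ, f x ∈ K) → MemLp f 2 μ := by
    intro f hf hfK
    exact MemLp.of_bound hf.aestronglyMeasurable C (hfK.mono fun x hx => hC _ hx)
  have int_Phi : ∀ f : E → E, AEStronglyMeasurable f μ → (∀ᵐ x ∂μ, f x ∈ K) →
      Integrable (fun x => Φ (f x)) μ := by
    intro f hf hfK
    exact Integrable.of_bound (hΦ.comp_aestronglyMeasurable hf) B (hfK.mono fun x hx => hB _ hx)
  have int_fd : ∀ F : E → ℝ, Test F → ∀ f : E → E, AEStronglyMeasurable f μ → (∀ᵐ x ∂μ, f x ∈ K) →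
      Integrable (fun x => fderiv ℝ F x (f x)) μ := by
    intro F hF f hf hfK
    obtain ⟨D, hD⟩ := exists_bound_fderiv hF
    have hD0 : 0 ≤ D := le_trans (norm_nonneg _) (hD 0)
    refine Integrable.of_bound (C := D * C) ?_ (hfK.mono fun x hx => ?_)
    · have h2 : Continuous fun q : (E →L[ℝ] ℝ) × E => q.1 q.2 :=
        isBoundedBilinearMap_apply.continuous
      exact h2.comp_aestronglyMeasurable
        ((continuous_fderiv_test hF).aestronglyMeasurable.prodMk hf)
    · calc ‖fderiv ℝ F x (f x)‖ ≤ ‖fderiv ℝ F x‖ * ‖f x‖ := ContinuousLinearMap.le_opNorm _ _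
        _ ≤ D * C := mul_le_mul (hD x) (hC _ hx) (norm_nonneg _) hD0
  have hgae : ∀ᵐ x ∂μ, g x ∈ K := by
    rw [hμ]
    filter_upwards [ae_restrict_mem hR] with x hx using hgK x hx
  -- the Hilbert space objects
  let S : Set (Lp E 2 μ) := {f | ∀ᵐ x ∂μ, f x ∈ K}
  let J : Lp E 2 μ → ℝ := fun f => ∫ x, Φ (f x) ∂μ
  have hSconv : Convex ℝ S := by
    intro f hf h hh a b ha hb hab
    show ∀ᵐ x ∂μ, (a • f + b • h : Lp E 2 μ) x ∈ K
    filter_upwards [hf, hh, Lp.coeFn_add (a • f) (b • h), Lp.coeFn_smul a f, Lp.coeFn_smul b h]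
      with x h1 h2 h3 h4 h5
    rw [h3, Pi.add_apply, h4, h5]
    exact hKc h1 h2 ha hb hab
  have hSbdd : Bornology.IsBounded S := by
    rw [isBounded_iff_forall_norm_le]
    exact ⟨_, fun f hf => Lp.norm_le_of_ae_bound hC0
      ((show ∀ᵐ x ∂μ, f x ∈ K from hf).mono fun x hx => hC _ hx)⟩
  have hseq : ∀ r : ℝ, IsClosed {f : Lp E 2 μ | f ∈ S ∧ r ≤ J f} := by
    intro r
    apply IsSeqClosed.isClosed
    intro u f hu hlim
    have h1 : TendstoInMeasure μ (fun n => (u n : E → E)) atTop f :=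
      tendstoInMeasure_of_tendsto_Lp hlim
    obtain ⟨ns, hns, hae⟩ := h1.exists_seq_tendsto_ae
    have hall : ∀ᵐ x ∂μ, ∀ n, (u n) x ∈ K := ae_all_iff.2 fun n => (hu n).1
    have hfS : ∀ᵐ x ∂μ, f x ∈ K := by
      filter_upwards [hae, hall] with x hx hx'
      exact hKcl.mem_of_tendsto hx (Eventually.of_forall fun n => hx' _)
    refine ⟨hfS, ?_⟩
    have h2 : Tendsto (fun n => ∫ x, Φ (u (ns n) x) ∂μ) atTop (𝓝 (∫ x, Φ (f x) ∂μ)) := by
      refine tendsto_integral_of_dominated_convergence (fun _ => B) (fun n => ?_)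
        (integrable_const B) (fun n => ?_) ?_
      · exact hΦ.comp_aestronglyMeasurable (Lp.aestronglyMeasurable _)
      · have h9 : ∀ᵐ x ∂μ, u (ns n) x ∈ K := (hu (ns n)).1
        exact h9.mono fun x hx => hB _ hx
      · filter_upwards [hae] with x hx
        exact (hΦ.tendsto _).comp hx
    exact ge_of_tendsto h2 (Eventually.of_forall fun n => (hu (ns n)).2)
  have hScl : IsClosed S := by
    apply IsSeqClosed.isClosed
    intro u f hu hlim
    have h1 : TendstoInMeasure μ (fun n => (u n : E → E)) atTop f :=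
      tendstoInMeasure_of_tendsto_Lp hlim
    obtain ⟨ns, hns, hae⟩ := h1.exists_seq_tendsto_ae
    have hall : ∀ᵐ x ∂μ, ∀ n, (u n) x ∈ K := ae_all_iff.2 fun n => hu n
    show ∀ᵐ x ∂μ, f x ∈ K
    filter_upwards [hae, hall] with x hx hx'
    exact hKcl.mem_of_tendsto hx (Eventually.of_forall fun n => hx' _)
  have hJ : ConcaveOn ℝ S J := by
    refine ⟨hSconv, fun f hf h hh a b ha hb hab => ?_⟩
    have i1 := int_Phi f (Lp.aestronglyMeasurable f) hf
    have i2 := int_Phi h (Lp.aestronglyMeasurable h) hh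
    have i3 := int_Phi (a • f + b • h : Lp E 2 μ) (Lp.aestronglyMeasurable _)
      (hSconv hf hh ha hb hab)
    show a • (∫ x, Φ (f x) ∂μ) + b • (∫ x, Φ (h x) ∂μ) ≤ ∫ x, Φ ((a • f + b • h : Lp E 2 μ) x) ∂μ
    rw [smul_eq_mul, smul_eq_mul, ← integral_const_mul, ← integral_const_mul,
      ← integral_add (i1.const_mul a) (i2.const_mul b)]
    refine integral_mono_ae ((i1.const_mul a).add (i2.const_mul b)) i3 ?_
    filter_upwards [hf, hh, Lp.coeFn_add (a • f) (b • h), Lp.coeFn_smul a f, Lp.coeFn_smul b h]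
      with x h1 h2 h3 h4 h5
    rw [h3, Pi.add_apply, h4, h5]
    exact hΦc.2 h1 h2 ha hb hab
  let V : Submodule ℝ (Lp E 2 μ) :=
    { carrier := {q | ∃ F, Test F ∧ (q : E → E) =ᵐ[μ] grad F}
      zero_mem' := by
        refine ⟨fun _ => 0, test_zero, ?_⟩
        filter_upwards [Lp.coeFn_zero E 2 μ] with x hx
        rw [hx]
        simp [grad]
      add_mem' := by
        rintro q q' ⟨F, hF, hq⟩ ⟨G, hG, hq'⟩
        refine ⟨F + G, test_add hF hG, ?_⟩
        filter_upwards [Lp.coeFn_add q q', hq, hq'] with x h1 h2 h3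
        rw [h1, Pi.add_apply, h2, h3]
        unfold grad
        rw [fderiv_add (hF.1.differentiable (by simp) x) (hG.1.differentiable (by simp) x), map_add]
      smul_mem' := by
        rintro c q ⟨F, hF, hq⟩
        refine ⟨c • F, test_smul hF c, ?_⟩
        filter_upwards [Lp.coeFn_smul c q, hq] with x h1 h2
        rw [h1, Pi.smul_apply, h2]
        unfold grad
        rw [fderiv_const_smul (hF.1.differentiable (by simp) x)]
        simp }
  let x₀ : Lp E 2 μ := (memLp_of_K g hg hgae).toLp g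
  have hx₀g : (x₀ : E → E) =ᵐ[μ] g := MemLp.coeFn_toLp _
  have hx₀ : x₀ ∈ S := by
    show ∀ᵐ x ∂μ, x₀ x ∈ K
    filter_upwards [hx₀g, hgae] with x h1 h2
    rw [h1]; exact h2
  have hJx₀ : J x₀ = ∫ x, Φ (g x) ∂μ := integral_congr_ae (hx₀g.mono fun x hx => by
    show Φ (x₀ x) = Φ (g x)
    rw [hx])
  -- the pairing
  have hpair : ∀ (q : Lp E 2 μ) (F : E → ℝ), Test F → (q : E → E) =ᵐ[μ] grad F →
      ∀ f ∈ S, ⟪q, f - x₀⟫ = ∫ x, fderiv ℝ F x (f x) ∂μ - ∫ x, fderiv ℝ F x (g x) ∂μ := by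
    intro q F hF hq f hf
    rw [L2.inner_def, ← integral_sub (int_fd F hF f (Lp.aestronglyMeasurable f) hf)
      (int_fd F hF g hg.aestronglyMeasurable hgae)]
    refine integral_congr_ae ?_
    filter_upwards [hq, Lp.coeFn_sub f x₀, hx₀g] with x h1 h2 h3
    rw [h1, h2, Pi.sub_apply, h3, inner_grad, map_sub]
  have hmaxH : ∀ f ∈ S, (∀ q ∈ V, ⟪q, f - x₀⟫ = 0) → J f ≤ J x₀ := by
    intro f hf hV
    let f' : E → E := fun x => if f x ∈ K then f x else k₀
    have hfm : Measurable (f : E → E) := (Lp.stronglyMeasurable f).measurable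
    have hf'm : Measurable f' :=
      Measurable.ite (hfm hKcl.measurableSet) hfm measurable_const
    have hf'K : ∀ x, f' x ∈ K := by
      intro x
      show (if f x ∈ K then f x else k₀) ∈ K
      split_ifs with h
      · exact h
      · exact hk₀
    have hff' : (f : E → E) =ᵐ[μ] f' := by
      filter_upwards [hf] with x hx
      show f x = if f x ∈ K then f x else k₀
      rw [if_pos hx]
    have h1 := hmax f' hf'm (fun x _ => hf'K x) (by
      intro ψ hψ
      obtain ⟨D, hD⟩ := exists_bound_fderiv hψ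
      have hmem : MemLp (grad ψ) 2 μ :=
        MemLp.of_bound (continuous_grad hψ).aestronglyMeasurable D
          (Eventually.of_forall fun x => by rw [norm_grad]; exact hD x)
      have h2 := hV (hmem.toLp _) ⟨ψ, hψ, MemLp.coeFn_toLp _⟩
      rw [hpair _ ψ hψ (MemLp.coeFn_toLp _) f hf, sub_eq_zero] at h2
      rw [← h2]
      exact (integral_congr_ae (hff'.mono fun x hx => by
        show fderiv ℝ ψ x (f x) = fderiv ℝ ψ x (f' x)
        rw [hx])).symm)
    rw [hJx₀]
    refine le_trans (le_of_eq ?_) h1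
    exact integral_congr_ae (hff'.mono fun x hx => by
      show Φ (f x) = Φ (f' x)
      rw [hx])
  obtain ⟨q, ⟨F, hF, hqF⟩, hq⟩ := Helper94.Dimer.hilbert_minimax S hSconv hSbdd hScl J hJ hseq V x₀ hx₀ hmaxH
    (ε / 2) (by positivity)
  refine ⟨F, hF, ?_⟩
  set m : ℝ := μ.real univ with hm
  have hm0 : 0 ≤ m := measureReal_nonneg
  obtain ⟨f, hfm, hfK, hfo⟩ := exists_selection hK hne hΦ hF (δ := ε / (2 * (m + 1)))
    (by positivity)
  have hfae : ∀ᵐ x ∂μ, f x ∈ K := Eventually.of_forall hfK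
  let fL : Lp E 2 μ := (memLp_of_K f hfm hfae).toLp f
  have hfL : (fL : E → E) =ᵐ[μ] f := MemLp.coeFn_toLp _
  have hfLS : fL ∈ S := by
    show ∀ᵐ x ∂μ, fL x ∈ K
    filter_upwards [hfL] with x h1
    rw [h1]; exact hfK x
  have h1 := hq fL hfLS
  rw [hpair q F hF hqF fL hfLS, hJx₀] at h1
  have h2 : J fL = ∫ x, Φ (f x) ∂μ := integral_congr_ae (hfL.mono fun x hx => by
    show Φ (fL x) = Φ (f x)
    rw [hx])
  have h3 : ∫ x, fderiv ℝ F x (fL x) ∂μ = ∫ x, fderiv ℝ F x (f x) ∂μ :=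
    integral_congr_ae (hfL.mono fun x hx => by
      show fderiv ℝ F x (fL x) = fderiv ℝ F x (f x)
      rw [hx])
  rw [h2, h3] at h1
  have iPf := int_Phi f hfm.aestronglyMeasurable hfae
  have iPg := int_Phi g hg.aestronglyMeasurable hgae
  have iFf := int_fd F hF f hfm.aestronglyMeasurable hfae
  have iFg := int_fd F hF g hg.aestronglyMeasurable hgae
  have hslack : ∫ x, slack K Φ (fderiv ℝ F x) (g x) ∂μ ≤
      ∫ x, ((Φ (f x) + fderiv ℝ F x (f x) + ε / (2 * (m + 1))) - fderiv ℝ F x (g x) - Φ (g x)) ∂μ := by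
    refine integral_mono_of_nonneg ?_ ?_ (Eventually.of_forall fun x => ?_)
    · filter_upwards [hgae] with x hx using slack_nonneg hK hΦ _ hx
    · exact (((iPf.add iFf).add (integrable_const _)).sub iFg).sub iPg
    · have := hfo x
      show Psi K Φ (fderiv ℝ F x) - fderiv ℝ F x (g x) - Φ (g x) ≤ _
      linarith
  have hcalc : ∫ x, ((Φ (f x) + fderiv ℝ F x (f x) + ε / (2 * (m + 1))) - fderiv ℝ F x (g x)
      - Φ (g x)) ∂μ = ∫ x, Φ (f x) ∂μ + ∫ x, fderiv ℝ F x (f x) ∂μ + m * (ε / (2 * (m + 1)))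
        - ∫ x, fderiv ℝ F x (g x) ∂μ - ∫ x, Φ (g x) ∂μ := by
    have i1 : Integrable (fun x => Φ (f x) + fderiv ℝ F x (f x)) μ := iPf.add iFf
    have i2 : Integrable (fun x => Φ (f x) + fderiv ℝ F x (f x) + ε / (2 * (m + 1))) μ :=
      i1.add (integrable_const _)
    have i3 : Integrable (fun x => Φ (f x) + fderiv ℝ F x (f x) + ε / (2 * (m + 1))
      - fderiv ℝ F x (g x)) μ := i2.sub iFg
    rw [integral_sub i3 iPg, integral_sub i2 iFg, integral_add i1 (integrable_const _),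
      integral_add iPf iFf, integral_const, smul_eq_mul]
  have hδ : m * (ε / (2 * (m + 1))) ≤ ε / 2 := by
    have h5 : m * (ε / (2 * (m + 1))) = (ε / 2) * (m / (m + 1)) := by
      field_simp
    rw [h5]
    have h6 : m / (m + 1) ≤ 1 := by
      rw [div_le_one (by positivity)]
      linarith
    nlinarith [div_pos hε (by norm_num : (0:ℝ) < 2)]
  rw [hcalc] at hslack
  linarith

end Helper77.Dimer
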