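import Pool.Agent.Helper21.LR.Stmts

/-!
MP_6358c9_nt (Laurent, Roy): module LR-S2, integrality.
-/

open MvPolynomial Pool.Agent.Helper21.LR

namespace Pool.Agent.Helper77.LRInteg

/-- Gauss: a product of linear forms over a valuation ring, each with a coefficient one, has a
coefficient of value one -/
lemma gauss {Ω : Type} [Field Ω] (V : ValuationSubring Ω) (n δ : ℕ) (l : Fin δ → Fin n → V)
    (k : Fin δ → Fin n) (hk : ∀ σ, l σ (k σ) = 1) :
    ∃ α, V.valuation ((coeff α (∏ σ, ∑ j, C (l σ j) * X j) : V) : Ω) = 1 := by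
  classical
  have h1 : ∀ σ, MvPolynomial.map (IsLocalRing.residue V) (∑ j, C (l σ j) * X j) ≠ 0 := by
    intro σ h
    have h2 := congrArg (coeff (Finsupp.single (k σ) 1)) h
    rw [coeff_map, coeff_zero, coeff_sum] at h2
    have h3 : ∑ x, coeff (Finsupp.single (k σ) 1) (C (l σ x) * (X x : MvPolynomial (Fin n) V))
        = l σ (k σ) := by
      rw [Finset.sum_eq_single (k σ)]
      · rw [coeff_C_mul, coeff_X]
        simp
      · intro j _ hj
        rw [coeff_C_mul, coeff_X]
        rw [if_neg, mul_zero]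
        intro h
        exact hj ((Finsupp.single_left_inj one_ne_zero).1 h)
      · intro h
        exact absurd (Finset.mem_univ _) h
    rw [h3, hk, map_one] at h2
    exact one_ne_zero h2
  have h2 : MvPolynomial.map (IsLocalRing.residue V) (∏ σ, ∑ j, C (l σ j) * X j) ≠ 0 := by
    rw [map_prod, Finset.prod_ne_zero_iff]
    intro σ _
    exact h1 σ
  obtain ⟨α, hα⟩ := MvPolynomial.ne_zero_iff.1 h2
  rw [coeff_map] at hα
  refine ⟨α, ?_⟩
  exact (V.valuation_eq_one_iff _).1 ((IsLocalRing.residue_ne_zero_iff_isUnit _).1 hα)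

/-- the local estimate -/
lemma loc {R Ω : Type} [CommRing R] [Field Ω] (ψ : R →+* Ω) (V : ValuationSubring Ω)
    (hV : ∀ x, ψ x ∈ V) (m δ : ℕ) (a : R) (p : Fin δ → Fin m → Ω)
    (F : MvPolynomial (Fin (m+1)) R)
    (hF : MvPolynomial.map ψ F = C (ψ a) * ∏ σ, (X 0 + ∑ j : Fin m, C (p σ j) * X j.succ))
    (Q : MvPolynomial (Fin m) R) (d : ℕ) (hQ : Q.totalDegree ≤ d) :
    ψ a ^ d * ∏ σ, eval₂ ψ (p σ) Q ∈ V := by
  classical
  rw [← V.valuation_le_one_iff]
  let q : Fin δ → Fin (m+1) → Ω := fun σ => Fin.cons 1 (p σ)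
  have hq0 : ∀ σ, q σ 0 = 1 := fun σ => rfl
  have hqs : ∀ σ j, q σ (Fin.succ j) = p σ j := fun σ j => rfl
  have hmax : ∀ σ, ∃ k, ∀ j, V.valuation (q σ j) ≤ V.valuation (q σ k) := fun σ =>
    Finite.exists_max (fun j => V.valuation (q σ j))
  choose k hk using hmax
  let c : Fin δ → Ω := fun σ => q σ (k σ)
  have hc1 : ∀ σ, 1 ≤ V.valuation (c σ) := by
    intro σ
    have := hk σ 0
    rwa [hq0, map_one] at this
  have hc0 : ∀ σ, c σ ≠ 0 := by
    intro σ h
    have := hc1 σ
    rw [h, map_zero] at this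
    exact not_lt.2 this zero_lt_one
  have hl : ∀ σ j, q σ j / c σ ∈ V := by
    intro σ j
    rw [← V.valuation_le_one_iff, map_div₀]
    apply div_le_one_of_le₀ (hk σ j) zero_le
  let l : Fin δ → Fin (m+1) → V := fun σ j => ⟨q σ j / c σ, hl σ j⟩
  obtain ⟨α, hα⟩ := gauss V (m+1) δ l k (fun σ => Subtype.ext (div_self (hc0 σ)))
  -- the leading value
  have hA : V.valuation (ψ a * ∏ σ, c σ) ≤ 1 := by
    have h1 : MvPolynomial.map ψ F = C (ψ a * ∏ σ, c σ) *
        MvPolynomial.map V.subtype (∏ σ, ∑ j, C (l σ j) * X j) := by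
      rw [hF, C_mul, mul_assoc, map_prod, map_prod, ← Finset.prod_mul_distrib]
      congr 1
      apply Finset.prod_congr rfl
      intro σ _
      rw [map_sum, Finset.mul_sum, Fin.sum_univ_succ]
      congr 1
      · rw [map_mul, map_C, map_X, ← mul_assoc, ← C_mul]
        have : c σ * V.subtype (l σ 0) = 1 := by
          show c σ * (q σ 0 / c σ) = 1
          rw [mul_div_cancel₀ _ (hc0 σ), hq0]
        rw [this, C_1, one_mul]
      · apply Finset.sum_congr rfl
        intro j _
        rw [map_mul, map_C, map_X, ← mul_assoc, ← C_mul]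
        have : c σ * V.subtype (l σ j.succ) = p σ j := by
          show c σ * (q σ j.succ / c σ) = p σ j
          rw [mul_div_cancel₀ _ (hc0 σ), hqs]
        rw [this]
    have h2 := congrArg (coeff α) h1
    rw [coeff_map, coeff_C_mul, coeff_map] at h2
    have h3 := congrArg V.valuation h2
    rw [map_mul V.valuation] at h3
    have h4 : V.valuation (V.subtype (coeff α (∏ σ, ∑ j, C (l σ j) * X j))) = 1 := hα
    rw [h4, mul_one] at h3
    rw [← h3]
    exact (V.valuation_le_one_iff _).2 (hV _)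
  -- the value of `Q`
  have hB : ∀ σ, V.valuation (eval₂ ψ (p σ) Q) ≤ V.valuation (c σ) ^ d := by
    intro σ
    rw [eval₂_eq']
    apply Valuation.map_sum_le
    intro β hβ
    rw [map_mul, map_prod]
    have h1 : V.valuation (ψ (coeff β Q)) ≤ 1 := (V.valuation_le_one_iff _).2 (hV _)
    have h2 : ∏ i, V.valuation (p σ i ^ β i) ≤ ∏ i, V.valuation (c σ) ^ β i := by
      apply Finset.prod_le_prod'
      intro i _
      rw [map_pow]
      apply pow_le_pow_left₀ zero_le
      exact hk σ i.succ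
    have h3 : ∏ i, V.valuation (c σ) ^ β i ≤ V.valuation (c σ) ^ d := by
      rw [Finset.prod_pow_eq_pow_sum]
      apply pow_le_pow_right₀ (hc1 σ)
      have := (le_totalDegree hβ).trans hQ
      rwa [Finsupp.sum_fintype _ _ (fun _ => rfl)] at this
    calc _ ≤ 1 * ∏ i, V.valuation (c σ) ^ β i := mul_le_mul' h1 h2
      _ ≤ _ := by rw [one_mul]; exact h3
  calc V.valuation (ψ a ^ d * ∏ σ, eval₂ ψ (p σ) Q)
      = V.valuation (ψ a) ^ d * ∏ σ, V.valuation (eval₂ ψ (p σ) Q) := by
        rw [map_mul, map_pow, map_prod]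
    _ ≤ V.valuation (ψ a) ^ d * ∏ σ, V.valuation (c σ) ^ d :=
        mul_le_mul' le_rfl (Finset.prod_le_prod' fun σ _ => hB σ)
    _ = V.valuation (ψ a * ∏ σ, c σ) ^ d := by
        rw [Finset.prod_pow, ← mul_pow, map_mul, map_prod]
    _ ≤ 1 := pow_le_one' hA d

theorem integ : SInteg := by
  intro R Ω _ _ _ _ ψ hψ m δ a p F hF Q d hQ num den hden hnum
  have h1 : ψ a ^ d * ∏ σ, eval₂ ψ (p σ) Q ∈
      (⨅ V : {V : ValuationSubring Ω // (ψ.range : Set Ω) ⊆ V.toSubring}, V.1.toSubring) := by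
    rw [Subring.mem_iInf]
    rintro ⟨V, hV⟩
    exact loc ψ V (fun x => hV ⟨x, rfl⟩) m δ a p F hF Q d hQ
  rw [iInf_valuationSubring_superset] at h1
  set z := ψ a ^ d * ∏ σ, eval₂ ψ (p σ) Q with hz
  have h2 : IsIntegral (Subring.closure (ψ.range : Set Ω)) z := h1
  rw [Subring.closure_eq] at h2
  obtain ⟨P, hP, hPz⟩ := h2
  obtain ⟨P', hP', -, hPm⟩ := Polynomial.lifts_and_natDegree_eq_and_monic
    ((Polynomial.mem_lifts _).2 (Polynomial.map_surjective _ ψ.rangeRestrict_surjective P)) hP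
  have h3 : P'.eval₂ ψ z = 0 := by
    rw [← hP', Polynomial.eval₂_map] at hPz
    exact hPz
  let K := FractionRing R
  let ψK : K →+* Ω := IsFractionRing.lift hψ
  have hψK : ∀ x : R, ψK (algebraMap R K x) = ψ x := fun x => IsFractionRing.lift_algebraMap hψ x
  have hden' : ψ den ≠ 0 := fun h => hden (hψ (by rw [h, map_zero]))
  have h5 : ψK (algebraMap R K (num * a ^ d) / algebraMap R K den) = z := by
    rw [map_div₀, hψK, hψK, div_eq_iff hden', map_mul, map_pow, ← hnum, hz]
    ring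
  set y := algebraMap R K (num * a ^ d) / algebraMap R K den with hy
  have h6 : IsIntegral R y := by
    refine ⟨P', hPm, ?_⟩
    apply ψK.injective
    rw [Polynomial.hom_eval₂, map_zero, h5]
    have : ψK.comp (algebraMap R K) = ψ := RingHom.ext hψK
    rw [this, h3]
  obtain ⟨g, hg⟩ := IsIntegrallyClosed.isIntegral_iff.1 h6
  exact ⟨g, by rw [← hψK, hg, h5]⟩

end Pool.Agent.Helper77.LRInteg
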