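import Pool.Agent.Helper21.LR.Stmts

/-!
MP_6358c9_nt (Laurent, Roy): module LR-INV, invariance of the Chow form under adding multiples of
the first hyperplane to the other ones.
-/

open MvPolynomial Pool.Agent.Helper21.LR

namespace Pool.Agent.Helper77.LRInv

/-- the substitution `U_i ↦ U_i + c_i U_0` on polynomials -/
noncomputable def Th {m r : ℕ} (c : Fin r → ℤ) :
    MvPolynomial (Fin (r+1) × Fin (m+1)) ℤ →ₐ[ℤ] MvPolynomial (Fin (r+1) × Fin (m+1)) ℤ :=
  aeval (fun ij => Fin.cases (motive := fun _ => MvPolynomial (Fin (r+1) × Fin (m+1)) ℤ)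
    (X (0, ij.2)) (fun i => X (i.succ, ij.2) + C (c i) * X (0, ij.2)) ij.1)

lemma aeval_Th {m r : ℕ} (c : Fin r → ℤ) (v : Fin (r+1) × Fin (m+1) → ℂ)
    (G : MvPolynomial (Fin (r+1) × Fin (m+1)) ℤ) :
    aeval v (Th c G) = aeval (fun ij => Fin.cases (motive := fun _ => ℂ)
      (v (0, ij.2)) (fun i => v (i.succ, ij.2) + c i * v (0, ij.2)) ij.1) G := by
  have h : (aeval v : MvPolynomial (Fin (r+1) × Fin (m+1)) ℤ →ₐ[ℤ] ℂ).comp (Th c) =
      aeval (fun ij => Fin.cases (motive := fun _ => ℂ)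
      (v (0, ij.2)) (fun i => v (i.succ, ij.2) + c i * v (0, ij.2)) ij.1) := by
    apply MvPolynomial.algHom_ext
    rintro ⟨i, j⟩
    refine Fin.cases ?_ (fun i => ?_) i
    · simp [Th]
    · simp [Th]
  exact DFunLike.congr_fun h G

lemma Th_neg {m r : ℕ} (c : Fin r → ℤ) (G : MvPolynomial (Fin (r+1) × Fin (m+1)) ℤ) :
    Th c (Th (-c) G) = G := by
  have h : (Th c).comp (Th (-c)) = AlgHom.id ℤ (MvPolynomial (Fin (r+1) × Fin (m+1)) ℤ) := by
    apply MvPolynomial.algHom_ext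
    rintro ⟨i, j⟩
    refine Fin.cases ?_ (fun i => ?_) i
    · simp [Th]
    · simp [Th]
  exact DFunLike.congr_fun h G

lemma dvd_Th {m r : ℕ} {ξ : Fin m → ℂ} {F : MvPolynomial (Fin (r+1) × Fin (m+1)) ℤ}
    (hF : IsChow r ξ F) (c : Fin r → ℤ) : F ∣ Th c F := by
  rw [← hF.2]
  intro u
  rw [aeval_Th]
  have h0 := (hF.2 F).2 dvd_rfl (fun ij => Fin.cases (motive := fun _ => ℂ)
    (u (0, ij.2)) (fun i => u (i.succ, ij.2) + c i * u (0, ij.2)) ij.1)
  convert h0 using 2
  apply congrArg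
  funext ij
  obtain ⟨i, j⟩ := ij
  refine Fin.cases ?_ (fun i => ?_) i
  · refine Fin.cases ?_ (fun j => ?_) j
    · simp [thr]
    · simp [thr]
  · refine Fin.cases ?_ (fun j => ?_) j
    · simp only [thr, Fin.cases_zero, Fin.cases_succ]
      rw [mul_neg, ← neg_add, Finset.mul_sum, ← Finset.sum_add_distrib]
      congr 1
      apply Finset.sum_congr rfl
      intro k _
      ring
    · simp [thr]

lemma Th_sq {m r : ℕ} {ξ : Fin m → ℂ} {F : MvPolynomial (Fin (r+1) × Fin (m+1)) ℤ}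
    (hF : IsChow r ξ F) (c : Fin r → ℤ) : (Th c F) ^ 2 = F ^ 2 := by
  have h1 := dvd_Th hF c
  have h2 : Th c F ∣ F := by
    have := map_dvd (Th (m := m) c) (dvd_Th hF (-c))
    rwa [Th_neg] at this
  obtain ⟨u, hu⟩ := associated_of_dvd_dvd h1 h2
  have hu1 : (u : MvPolynomial (Fin (r+1) × Fin (m+1)) ℤ) ^ 2 = 1 := by
    have := (MvPolynomial.isUnit_iff_eq_C_of_isReduced (P := (u : MvPolynomial (Fin (r+1) × Fin (m+1)) ℤ))).1 u.isUnit
    obtain ⟨z, hz, hz'⟩ := this
    rw [hz']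
    rcases Int.isUnit_iff.1 hz with h | h
    · simp [h]
    · simp [h]
  rw [← hu, mul_pow, hu1, mul_one]

/-- the polynomial in `c` -/
noncomputable def Ps {m r : ℕ} (w : Fin (m+1) → ℂ) (U : Fin r × Fin (m+1) → ℂ) :
    MvPolynomial (Fin (r+1) × Fin (m+1)) ℤ →ₐ[ℤ] MvPolynomial (Fin r) ℂ :=
  aeval (fun ij => Fin.cases (motive := fun _ => MvPolynomial (Fin r) ℂ)
    (C (w ij.2)) (fun i => C (U (i, ij.2)) + X i * C (w ij.2)) ij.1)

lemma eval_Ps {m r : ℕ} (w : Fin (m+1) → ℂ) (U : Fin r × Fin (m+1) → ℂ) (c : Fin r → ℂ)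
    (G : MvPolynomial (Fin (r+1) × Fin (m+1)) ℤ) :
    eval c (Ps w U G) = aeval (consU w (fun ij => U ij + c ij.1 * w ij.2)) G := by
  have h : ((MvPolynomial.aeval c : MvPolynomial (Fin r) ℂ →ₐ[ℂ] ℂ).restrictScalars ℤ).comp
      (Ps w U) = aeval (consU w (fun ij => U ij + c ij.1 * w ij.2)) := by
    apply MvPolynomial.algHom_ext
    rintro ⟨i, j⟩
    refine Fin.cases ?_ (fun i => ?_) i
    · simp [Ps, consU]
    · simp [Ps, consU]
  have := DFunLike.congr_fun h G
  simpa [MvPolynomial.aeval_eq_eval] using this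

theorem inv : SInv := by
  intro m r ξ F hF c w U
  have key : ∀ c : Fin r → ℤ, eval (fun i => (c i : ℂ)) (Ps w U F) ^ 2 =
      eval (0 : Fin r → ℂ) (Ps w U F) ^ 2 := by
    intro c
    rw [eval_Ps, eval_Ps]
    have h := congrArg (fun G => aeval (consU w U) G) (Th_sq hF.chow c)
    simp only [map_pow] at h
    rw [aeval_Th] at h
    have e1 : (fun ij : Fin (r+1) × Fin (m+1) => Fin.cases (motive := fun _ => ℂ)
        (consU w U (0, ij.2)) (fun i => consU w U (i.succ, ij.2) + c i * consU w U (0, ij.2)) ij.1) =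
        consU w (fun ij => U ij + (c ij.1 : ℂ) * w ij.2) := by
      funext ij
      obtain ⟨i, j⟩ := ij
      refine Fin.cases ?_ (fun i => ?_) i
      · simp [consU]
      · simp [consU]
    have e2 : (fun ij : Fin r × Fin (m+1) => U ij + (0 : Fin r → ℂ) ij.1 * w ij.2) = U := by
      funext ij
      simp
    rw [e1] at h
    rw [e2]
    exact h
  have hz : (Ps w U F) ^ 2 = (C (eval (0 : Fin r → ℂ) (Ps w U F))) ^ 2 := by
    apply MvPolynomial.funext_set (fun _ => Set.range (fun z : ℤ => (z : ℂ)))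
      (fun _ => Set.infinite_range_of_injective Int.cast_injective)
    intro x hx
    have : ∀ i, ∃ z : ℤ, (z : ℂ) = x i := fun i => hx i trivial
    choose z hz using this
    have hx' : x = fun i => (z i : ℂ) := funext fun i => (hz i).symm
    rw [hx']
    simp only [map_pow, eval_C]
    exact key z
  have hfin : Ps w U F = C (eval (0 : Fin r → ℂ) (Ps w U F)) := by
    rcases sq_eq_sq_iff_eq_or_eq_neg.1 hz with h | h
    · exact h
    · have h0 := congrArg (eval (0 : Fin r → ℂ)) h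
      rw [map_neg, eval_C] at h0
      have h1 : eval (0 : Fin r → ℂ) (Ps w U F) = 0 := by
        have : (2 : ℂ) * eval (0 : Fin r → ℂ) (Ps w U F) = 0 := by linear_combination h0
        simpa using this
      rw [h1] at h ⊢
      simpa using h
  rw [← eval_Ps, hfin, eval_C, eval_Ps]
  congr 2
  funext ij
  simp

end Pool.Agent.Helper77.LRInv
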