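import Pool.Agent.Helper21.LR.Stmts

/-!
MP_6358c9_nt (Laurent, Roy): module LR-S3, extension of a specialisation.
-/

open MvPolynomial Pool.Agent.Helper21.LR

namespace Pool.Agent.Helper77.LRSpecial

/-- a homomorphism to an algebraically closed field extends to integral extensions -/
lemma ext_of_integral {A B Ω' : Type} [CommRing A] [CommRing B] [Field Ω'] [IsAlgClosed Ω']
    [Algebra A B] [Algebra.IsIntegral A B] (φ : A →+* Ω')
    (h : RingHom.ker (algebraMap A B) ≤ RingHom.ker φ) :
    ∃ Φ : B →+* Ω', ∀ x, Φ (algebraMap A B x) = φ x := by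
  have hPp : (RingHom.ker φ).IsPrime := RingHom.ker_isPrime φ
  obtain ⟨Q, -, hQ, hQP⟩ := Ideal.exists_ideal_over_prime_of_isIntegral (RingHom.ker φ)
    (⊥ : Ideal B) (by rwa [← RingHom.ker_eq_comap_bot])
  have : Q.LiesOver (RingHom.ker φ) := (Ideal.liesOver_iff _ _).mpr hQP.symm
  let : Algebra (A ⧸ RingHom.ker φ) Ω' := (RingHom.kerLift φ).toAlgebra
  have : FaithfulSMul (A ⧸ RingHom.ker φ) Ω' :=
    (faithfulSMul_iff_algebraMap_injective _ _).2 (RingHom.kerLift_injective φ)
  have : Module.IsTorsionFree (A ⧸ RingHom.ker φ) Ω' := inferInstance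
  have : FaithfulSMul (A ⧸ RingHom.ker φ) (B ⧸ Q) := inferInstance
  have : Module.IsTorsionFree (A ⧸ RingHom.ker φ) (B ⧸ Q) := inferInstance
  have : Algebra.IsIntegral (A ⧸ RingHom.ker φ) (B ⧸ Q) := inferInstance
  let L : (B ⧸ Q) →ₐ[A ⧸ RingHom.ker φ] Ω' := IsAlgClosed.lift
  refine ⟨L.toRingHom.comp (Ideal.Quotient.mk Q), fun x => ?_⟩
  have := L.commutes (Ideal.Quotient.mk (RingHom.ker φ) x)
  exact this

theorem special : SSpecial := by
  intro R Ω Ω' _ _ _ _ _ ψ hψ a n z hz φ hφ
  have ha : a ≠ 0 := by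
    rintro rfl
    exact hφ (map_zero φ)
  have hua : IsUnit (ψ a) := by
    rw [isUnit_iff_ne_zero]
    intro h
    exact ha (hψ (by rw [h, map_zero]))
  have hub : IsUnit (φ a) := isUnit_iff_ne_zero.2 hφ
  let A := Localization.Away a
  let ψA : A →+* Ω := IsLocalization.Away.lift a hua
  let φA : A →+* Ω' := IsLocalization.Away.lift a hub
  have hψA : ∀ x : R, ψA (algebraMap R A x) = ψ x := fun x => IsLocalization.Away.lift_eq a hua x
  have hφA : ∀ x : R, φA (algebraMap R A x) = φ x := fun x => IsLocalization.Away.lift_eq a hub x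
  have hinj : Function.Injective ψA := by
    rw [injective_iff_map_eq_zero]
    intro x hx
    obtain ⟨k, y, hy⟩ := IsLocalization.Away.surj a x
    have h1 : ψ y = 0 := by
      rw [← hψA, ← hy, map_mul, hx, zero_mul]
    have h2 : y = 0 := hψ (by rw [h1, map_zero])
    rw [h2, map_zero] at hy
    have hu : IsUnit (algebraMap R A a ^ k) := (IsLocalization.Away.algebraMap_isUnit a).pow k
    exact (hu.mul_left_eq_zero).1 hy
  let : Algebra A Ω := ψA.toAlgebra
  have hint : ∀ x ∈ Set.range z, IsIntegral A x := by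
    rintro _ ⟨i, rfl⟩
    obtain ⟨P, hP0, hPa, hPz⟩ := hz i
    have hu : IsUnit (algebraMap R A a) := IsLocalization.Away.algebraMap_isUnit a
    obtain ⟨u, hu'⟩ := hu
    have hne : algebraMap R A P.leadingCoeff ≠ 0 := by
      rw [hPa]
      intro h
      have := congrArg ψA h
      rw [hψA, map_zero] at this
      exact hua.ne_zero this
    refine ⟨Polynomial.C ((u⁻¹ : Aˣ) : A) * P.map (algebraMap R A), ?_, ?_⟩
    · apply Polynomial.monic_C_mul_of_mul_leadingCoeff_eq_one
      rw [Polynomial.leadingCoeff_map_of_leadingCoeff_ne_zero _ hne, hPa, ← hu']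
      simp
    · rw [Polynomial.eval₂_mul, Polynomial.eval₂_map]
      have : (algebraMap A Ω).comp (algebraMap R A) = ψ := RingHom.ext hψA
      rw [this, hPz, mul_zero]
  have : Algebra.IsIntegral A (Algebra.adjoin A (Set.range z)) := Algebra.IsIntegral.adjoin hint
  obtain ⟨Φ, hΦ⟩ := ext_of_integral (B := Algebra.adjoin A (Set.range z)) φA (by
    intro x hx
    have hx' : ψA x = 0 := by
      have := congrArg (Subtype.val : Algebra.adjoin A (Set.range z) → Ω) hx
      exact this
    have hx0 : x = 0 := hinj (by rw [hx', map_zero])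
    rw [hx0]
    exact Ideal.zero_mem _)
  let zB : Fin n → Algebra.adjoin A (Set.range z) := fun i =>
    ⟨z i, Algebra.subset_adjoin ⟨i, rfl⟩⟩
  refine ⟨fun i => Φ (zB i), fun G hG => ?_⟩
  have h1 : eval₂ ((algebraMap A (Algebra.adjoin A (Set.range z))).comp (algebraMap R A)) zB G
      = 0 := by
    apply Subtype.val_injective
    have := eval₂_comp_left (Algebra.adjoin A (Set.range z)).val.toRingHom
      ((algebraMap A (Algebra.adjoin A (Set.range z))).comp (algebraMap R A)) zB G
    refine (this.trans ?_).trans (hG.trans rfl)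
    congr 1
    exact RingHom.ext hψA
  have h2 := congrArg Φ h1
  rw [eval₂_comp_left, map_zero] at h2
  have h3 : Φ.comp ((algebraMap A (Algebra.adjoin A (Set.range z))).comp (algebraMap R A)) = φ := by
    apply RingHom.ext
    intro x
    simp only [RingHom.comp_apply]
    rw [hΦ, hφA]
  rw [h3] at h2
  exact h2

end Pool.Agent.Helper77.LRSpecial
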